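import Pool.Agent.J4H10.TF.Main

/-!
# MP_12d50c_ag: ranks of higher Chow groups of arithmetic schemes, Serre classes and trilinear forms

For a scheme `X` of finite type over `ℤ` let `A m k X`, `m, k ∈ ℤ`, be modules over a commutative ring `Λ`
with the properties `IsTheory`: isomorphisms, localization sequences, the product with the multiplicative
group, and the homotopy invariance for the affine bundles of Jouanolou. Examples (known: Bloch, Levine,
Quillen): `A m k X = CH_m(X, k) ⊗ ℚ`, `Λ = ℚ` (cycles of dimension `m + k` on `X × Δ^k`; this is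
`CH^r(X, k) ⊗ ℚ` with `r = dim X - m`); the integral groups `CH_m(X, k)`, `Λ = ℤ`; the groups
`A m k X = G_k(X)` (or `G_k(X) ⊗ Λ`) of the algebraic `K`-theory of coherent sheaves.

The theorem is for all Serre classes `S` of `Λ`-modules: the statement that `A m k X` is in `S` for all `m`, `k`
and all arithmetic schemes `X` (of dimension at most `D`) is equivalent to the same statement for the smooth
affine cubic hypersurfaces `T(x, y, z) = 1`, `T` a trilinear form over `ℤ` with coefficients `0` and `1` (over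
`ℤ` and the prime fields, with a short block of variables). For `Λ = ℚ` and the class of the
finite-dimensional spaces this is Q1; for `Λ = ℤ` and the class of the finitely generated groups it is the
question of finite generation of the integral higher Chow groups. (For `G`-theory, Bass' question, see the
starting result MP_e17fa799_al/TrilinearForms: the same method.)
-/

set_option autoImplicit false

open CategoryTheory AlgebraicGeometry Pool.Agent.Y116.UV

universe u w

namespace Pool.Agent.Results.MP_12d50c_ag.SerreClasses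

/-- Isomorphic schemes have isomorphic modules `A m k X`. -/
def Iso {Λ : Type u} [CommRing Λ] (A : ℤ → ℤ → Sch ℤ → ModuleCat.{w} Λ) : Prop :=
  ∀ {X Y : Sch ℤ}, FT False X → Nonempty (X ≅ Y) → ∀ m k, Nonempty (A m k X ≃ₗ[Λ] A m k Y)

/-- There is a long exact sequence `⋯ → F k → G k → H k → F (k-1) → ⋯`. -/
def LES {Λ : Type u} [CommRing Λ] (F G H : ℤ → ModuleCat.{w} Λ) : Prop :=
  ∃ (f : ∀ k : ℤ, F k →ₗ[Λ] G k) (g : ∀ k : ℤ, G k →ₗ[Λ] H k) (h : ∀ k : ℤ, H k →ₗ[Λ] F (k - 1)),
    (∀ k, Function.Exact (f k) (g k)) ∧ (∀ k, Function.Exact (g k) (h k)) ∧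
      ∀ k, Function.Exact (h k) (f (k - 1))

/-- Localization sequences: `⋯ → A m k Z → A m k X → A m k U → A m (k-1) Z → ⋯` for a closed `Z ⊆ X` with the
open complement `U`. -/
def Loc {Λ : Type u} [CommRing Λ] (A : ℤ → ℤ → Sch ℤ → ModuleCat.{w} Λ) : Prop :=
  ∀ {Z X U : Sch ℤ} (i : Z ⟶ X) (j : U ⟶ X), FT False X → IsTriple i j → ∀ m : ℤ,
    LES (fun k => A m k Z) (fun k => A m k X) (fun k => A m k U)

/-- `A m k (X × 𝔾_m) = A (m-1) k X ⊕ A m (k-1) X` for affine `X`. -/
def Gm {Λ : Type u} [CommRing Λ] (A : ℤ → ℤ → Sch ℤ → ModuleCat.{w} Λ) : Prop :=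
  ∀ (B : Type) [CommRing B] [Algebra ℤ B] [Algebra.FiniteType ℤ B] (m k : ℤ),
    Nonempty (A m k (aff ℤ (LaurentPolynomial B)) ≃ₗ[Λ] (A (m - 1) k (aff ℤ B) × A m (k - 1) (aff ℤ B)))

/-- `A (m + r - 1) k E = A m k U`, if `U` is the complement of `f_1 = … = f_r = 0` in `Spec B` and `E` is the
affine bundle `Spec (B[w] / (∑ f_l w_l - 1))` of rank `r - 1` over `U`. -/
def Bun {Λ : Type u} [CommRing Λ] (A : ℤ → ℤ → Sch ℤ → ModuleCat.{w} Λ) : Prop :=
  ∀ (B : Type) [CommRing B] [Algebra ℤ B] [Algebra.FiniteType ℤ B] (r : ℕ) (f : Fin r → B)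
    (U : Sch ℤ) (j : U ⟶ aff ℤ B), IsOpenImmersion j.left →
    Set.range j.left = {x : PrimeSpectrum B | ∃ l, f l ∉ x.asIdeal} →
    ∀ m k : ℤ, Nonempty (A (m + (r - 1)) k (aff ℤ (Jou f)) ≃ₗ[Λ] A m k U)

/-- The properties of the family of `Λ`-modules `A m k X`, for schemes `X` of finite type over `ℤ`, which are
used: isomorphisms, localization sequences, products with `𝔾_m`, affine bundles of Jouanolou. -/
structure IsTheory {Λ : Type u} [CommRing Λ] (A : ℤ → ℤ → Sch ℤ → ModuleCat.{w} Λ) : Prop where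
  iso : Iso A
  les : Loc A
  torus : Gm A
  jou : Bun A

/-- A Serre class of `Λ`-modules: it contains the zero modules and, with `M` and `K`, all modules `N` with an
exact sequence `M → N → K` (so it is closed under isomorphisms, submodules, quotients, extensions). -/
structure IsSerre {Λ : Type u} [CommRing Λ] (S : ModuleCat.{w} Λ → Prop) : Prop where
  zero : ∀ M : ModuleCat.{w} Λ, Subsingleton M → S M
  mid : ∀ {M N K : ModuleCat.{w} Λ} (f : M →ₗ[Λ] N) (g : N →ₗ[Λ] K), Function.Exact f g →
    S M → S K → S N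

/-- All modules `A m k X`, `m, k ∈ ℤ`, are in the class `S`. -/
def AllIn {Λ : Type u} [CommRing Λ] (S : ModuleCat.{w} Λ → Prop)
    (A : ℤ → ℤ → Sch ℤ → ModuleCat.{w} Λ) (X : Sch ℤ) : Prop :=
  ∀ m k : ℤ, S (A m k X)

/-- The finitely generated modules. -/
def FinGen (Λ : Type u) [CommRing Λ] (M : ModuleCat.{w} Λ) : Prop := Module.Finite Λ M

/-- `P` is true for all schemes of finite type over `ℤ`. -/
def ForAllSchemes (P : Sch ℤ → Prop) : Prop :=
  ∀ X : Sch ℤ, LocallyOfFiniteType X.hom → QuasiCompact X.hom → P X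

/-- `P` is true for all schemes of finite type over `ℤ` and of dimension at most `D`. -/
def ForDimension (P : Sch ℤ → Prop) (D : ℕ) : Prop :=
  ∀ X : Sch ℤ, LocallyOfFiniteType X.hom → QuasiCompact X.hom →
    topologicalKrullDim X.left ≤ D → P X

/-- `P` is true for the hypersurfaces `T(x, y, z) = 1` over `ℤ`, for all trilinear forms `T` with coefficients
`0` and `1`. -/
def ForZeroOneForms (P : Sch ℤ → Prop) : Prop :=
  ∀ (a b c : ℕ) (T : Fin a → Fin b → Fin c → ℤ), (∀ i j k, T i j k = 0 ∨ T i j k = 1) →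
    P (aff ℤ (Hyp T))

/-- `P` is true for the hypersurfaces `T(x, y, z) = 1` over `R` (as schemes over `ℤ`), for all trilinear forms
`T` over `R` one of whose three blocks of variables has at most `m` variables. -/
def ForForms (P : Sch ℤ → Prop) (R : Type) [CommRing R] (m : ℕ) : Prop :=
  ∀ (a b c : ℕ) (T : Fin a → Fin b → Fin c → R), (a ≤ m ∨ b ≤ m ∨ c ≤ m) → P (aff ℤ (Hyp T))

/-- **Trilinear forms suffice for `P`.** (1) `P` is true for all schemes of finite type over `ℤ` if and only
if it is true for the hypersurfaces `T(x, y, z) = 1`, `T` trilinear with coefficients `0` and `1`. (2) For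
`D ≥ 1` the following are equivalent: `P` is true for all schemes of finite type over `ℤ` and of dimension at
most `D`; for all domains `R` of finite type over `ℤ`, of dimension at most `e ≤ D`, and all trilinear forms
over `R` with a block of at most `m ≤ D + 2 - e` variables; for all trilinear forms over `ℤ` with a block of
at most `D + 1` variables and all trilinear forms over the fields `𝔽_p`, `p` prime, with a block of at most
`D + 2` variables. -/
structure FormsSuffice (P : Sch ℤ → Prop) : Prop where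
  all : ForAllSchemes P ↔ ForZeroOneForms P
  dim : ∀ D : ℕ, 1 ≤ D → List.TFAE [
    ForDimension P D,
    ∀ (R : Type) [CommRing R] [IsDomain R] [Algebra.FiniteType ℤ R] (e m : ℕ),
      ringKrullDim R ≤ e → e ≤ D → m + e ≤ D + 2 → ForForms P R m,
    ForForms P ℤ (D + 1) ∧ ∀ (p : ℕ) [Fact p.Prime], ForForms P (ZMod p) (D + 2)]

section

variable {Λ : Type u} [CommRing Λ] {S : ModuleCat.{w} Λ → Prop} (hS : IsSerre S)

include hS

lemma quot {M N : ModuleCat.{w} Λ} (f : M →ₗ[Λ] N) (hf : Function.Surjective f) (h : S M) : S N :=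
  hS.mid (K := ModuleCat.of Λ PUnit.{w+1}) f (0 : N →ₗ[Λ] PUnit.{w+1})
    (fun y => ⟨fun _ => hf y, fun _ => rfl⟩) h
    (hS.zero _ (inferInstanceAs (Subsingleton PUnit.{w+1})))

lemma equiv {M N : ModuleCat.{w} Λ} (e : M ≃ₗ[Λ] N) (h : S M) : S N :=
  quot hS e.toLinearMap e.surjective h

theorem good {A : ℤ → ℤ → Sch ℤ → ModuleCat.{w} Λ} (hA : IsTheory A) :
    Pool.Agent.J4H10.TF.Good (AllIn S A) where
  iso hX e h m k := by
    obtain ⟨e'⟩ := hA.iso hX ⟨e⟩ m k
    exact equiv hS e' (h m k)
  total i j hX ht hZ hU m k := by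
    obtain ⟨f, g, d, h1, h2, h3⟩ := hA.les i j hX ht m
    exact hS.mid (f k) (g k) (h1 k) (hZ m k) (hU m k)
  opened i j hX ht hZ hX' m k := by
    obtain ⟨f, g, d, h1, h2, h3⟩ := hA.les i j hX ht m
    exact hS.mid (g k) (d k) (h2 k) (hX' m k) (hZ m (k - 1))
  closed i j hX ht hX' hU m k := by
    obtain ⟨f, g, d, h1, h2, h3⟩ := hA.les i j hX ht m
    have h4 := hS.mid (d (k + 1)) (f (k + 1 - 1)) (h3 (k + 1)) (hU m (k + 1)) (hX' m (k + 1 - 1))
    rwa [add_sub_cancel_right] at h4
  up B _ _ _ r f U j hj hr h m k := by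
    obtain ⟨e⟩ := hA.jou B r f U j hj hr (m - (r - 1)) k
    rw [sub_add_cancel] at e
    exact equiv hS e.symm (h _ k)
  down B _ _ _ r f U j hj hr h m k := by
    obtain ⟨e⟩ := hA.jou B r f U j hj hr m k
    exact equiv hS e (h _ k)
  torus B _ _ _ h m k := by
    obtain ⟨e⟩ := hA.torus B (m + 1) k
    have h1 := quot hS (N := A (m + 1 - 1) k (aff ℤ B)) (LinearMap.fst Λ _ _ ∘ₗ e.toLinearMap)
      (Prod.fst_surjective.comp e.surjective) (h (m + 1) k)
    rwa [add_sub_cancel_right] at h1

end

/-- Over a noetherian ring the finitely generated modules are a Serre class. -/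
lemma serre_finGen (Λ : Type u) [CommRing Λ] [IsNoetherianRing Λ] :
    IsSerre (FinGen.{u, w} Λ) where
  zero M h := by
    unfold FinGen
    infer_instance
  mid {M N K} f g hfg hM hK := by
    unfold FinGen at hM hK ⊢
    have h1 : Module.Finite Λ (LinearMap.ker g) := by
      rw [LinearMap.exact_iff.mp hfg]
      infer_instance
    have h2 : Module.Finite Λ (N ⧸ LinearMap.ker g) :=
      Module.Finite.equiv g.quotKerEquivRange.symm
    exact Module.Finite.of_submodule_quotient (LinearMap.ker g)

/-- **Theorem.** Let `A m k X` be a family of `Λ`-modules with the properties `IsTheory`. For all Serre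
classes `S` of `Λ`-modules trilinear forms suffice for the statement that all `A m k X` are in `S`; in
particular, if `Λ` is noetherian, they suffice for the statement that all `A m k X` are finitely generated
(for `Λ = ℚ` and the higher Chow groups: of finite rank). The hypersurfaces `T(x, y, z) = 1` are smooth over
`R`, for all rings `R` and all trilinear forms `T` over `R`. -/
theorem result :
    (∀ (Λ : Type u) [CommRing Λ] (A : ℤ → ℤ → Sch ℤ → ModuleCat.{w} Λ), IsTheory A →
      (∀ S : ModuleCat.{w} Λ → Prop, IsSerre S → FormsSuffice (AllIn S A)) ∧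
      (IsNoetherianRing Λ → FormsSuffice (AllIn (FinGen Λ) A))) ∧
    ∀ (R : Type) [CommRing R] (a b c : ℕ) (T : Fin a → Fin b → Fin c → R),
      Smooth (aff R (Hyp T)).hom := by
  have key : ∀ (Λ : Type u) [CommRing Λ] (A : ℤ → ℤ → Sch ℤ → ModuleCat.{w} Λ), IsTheory A →
      ∀ S : ModuleCat.{w} Λ → Prop, IsSerre S → FormsSuffice (AllIn S A) := fun Λ _ A hA S hS =>
    ⟨Pool.Agent.J4H10.TF.int_iff (good hS hA), fun _ hD =>
      Pool.Agent.J4H10.TF.dim_tfaeZ (good hS hA) hD⟩
  exact ⟨fun Λ _ A hA => ⟨key Λ A hA, fun _ => key Λ A hA _ (serre_finGen Λ)⟩,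
    fun _ _ _ _ _ T => Pool.Agent.J4H10.TF.smooth_hyp T⟩

end Pool.Agent.Results.MP_12d50c_ag.SerreClasses
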